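import Pool.Agent.R913.Mix.Zet

/-!
# MP_e54452_nt: the smallest torsor through the comparison isomorphism, for mixed Tate motives over the integers

Let `M` be a mixed Tate motive over the integers, let `S` be its torsor of periods: the set of all period matrices
`(⟨φ(w_i), σ_k⟩)` for `φ ∈ Isom(ω_dR, ω_B)(ℂ)`, in bases of the de Rham realization and of the dual of the Betti
realization, and let `c ∈ S` be the matrix of the comparison isomorphism.  `S` is a torsor defined over `ℚ`,
irreducible, and its Lie algebra is spanned by the matrix `W` of the weights and by the Lie algebra `L` generated by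
the images `σ_n` of the generators of degree `n = 3, 5, 7, …`, `[W, σ_n] = n σ_n`.  We suppose that `M` contains the
non-trivial extensions `E_n` of `ℚ(-n)` by `ℚ(0)`, with the period matrix with rows `(1, 0)` and
`(ζ(n), (2πi)^n)`, for all `n ∈ J`, where the `σ_n`, `n ∈ J`, generate `L`.  This is no restriction: every mixed Tate
motive over the integers is a direct summand of such an `M`, and adding the `E_n` with `σ_n ∉ [L, L]` does not change
the Tannakian category generated by the motive.

The period conjecture for `M` says that `c` is a generic point of `S` over `ℚ`.  Let `Ω` be the intersection of all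
subtorsors over `ℚ` (of `GL_N`, hence also of `S`) which contain `c`; it is the torsor of the category generated by the
de Rham-Betti realization of `M`.

**Theorem.**
1. The image of `Lie(Ω) ∩ L` in `L / [L, L] = ⊕ ℂ σ_n` is spanned by the `σ_n` such that `ζ(n)` is irrational.
2. `Ω = S` if and only if `ζ(n)` is irrational for all `n ∈ J`.
3. The period conjecture holds for `M` if and only if the Zariski closure of `c` over `ℚ` is a torsor and `ζ(n)` is
   irrational for all `n ∈ J`.

So the period conjecture for the category of mixed Tate motives over the integers (injectivity of the period map)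
holds if and only if the odd zeta values `ζ(3), ζ(5), …` are irrational and the Zariski closures of the comparison
points are torsors; and the first condition alone is equivalent to the equality of the motivic torsors and of the
de Rham-Betti torsors.  In particular the latter equality is not stronger than the irrationality of the single odd
zeta values, although it concerns all multiple zeta values.

The first part of the theorem below is more general: `K` is any field of algebraic numbers, and there may be several
generators of the same degree, with periods `z_j` in `ℂ / (K + K (2πi)^n)`, as for mixed Tate motives over rings of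
`S`-integers; the condition is that the `z_j` of degree `n` are linearly independent over `K` modulo
`K + K (2πi)^n`, for every `n`.
-/

set_option autoImplicit false

namespace Pool.Agent.Results.MP_e54452_nt.OddZetaTorsors

open Matrix Pool.Agent.R913.Mix Pool.Agent.R913.Tor Pool.Agent.TH127.PT

/-- The zeta value `ζ(n) = ∑ 1 / k ^ n`, sum over the positive integers `k`. -/
noncomputable def zet (n : ℕ) : ℝ := ∑' k : ℕ, 1 / ((k : ℝ) + 1) ^ n

variable {N : Type} [Fintype N] [DecidableEq N] {J : Type} [Fintype J] [DecidableEq J]

/-- `S` is an irreducible torsor over `K` containing `c`, its Lie algebra is spanned by `W` and by the Lie algebra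
generated by matrices `σ j` over `K` of positive degree `n j`, and for every `j` the rows `a j`, `b j` form a
subobject of rank two with the periods `1, 0` and `z j, (2πi) ^ n j`, on which only `W` and `σ j` are not zero. -/
structure PeriodTorsor (K : Subfield ℂ) (S : Set (Matrix N N ℂ)) (c W : Matrix N N ℂ) (σ : J → Matrix N N ℂ)
    (n : J → ℕ) (a b : J → N) (z : J → ℂ) : Prop where
  sub : IsSubtorsor K S
  irr : Irred S
  mem : c ∈ S
  pos : ∀ j, 0 < n j
  gen : Blk K W σ n a b
  row : Pt c a b n z (2 * Real.pi * Complex.I)
  lie : LM S = Submodule.span ℂ {W} ⊔ Lg σ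

/-- **The smallest torsor through the comparison isomorphism of a mixed Tate motive, and the period conjecture.** -/
theorem result [Nonempty J] (K : Subfield ℂ) (hK : ∀ x ∈ K, IsAlgebraic ℚ x) (S : Set (Matrix N N ℂ))
    (c W : Matrix N N ℂ) (σ : J → Matrix N N ℂ) (n : J → ℕ) (a b : J → N) (z : J → ℂ)
    (h : PeriodTorsor K S c W σ n a b z) :
    ((∀ y, y ∈ (LM (hull K c) ⊓ Lg σ) ⊔ der (Lg σ) ↔ y ∈ Lg σ ∧
        ∀ m u, IsRel K n z (2 * Real.pi * Complex.I) m u → ∑ j, u j * y (b j) (a j) = 0) ∧
      (hull K c = S ↔ ∀ m u, IsRel K n z (2 * Real.pi * Complex.I) m u → ∀ j, u j = 0) ∧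
      (Generic K S c ↔ IsTorsor (Zar K c) ∧
        ∀ m u, IsRel K n z (2 * Real.pi * Complex.I) m u → ∀ j, u j = 0)) ∧
    (K = ⊥ → Function.Injective n → (∀ j, Odd (n j)) → (∀ j, z j = (zet (n j) : ℂ)) →
      (LM (hull K c) ⊓ Lg σ) ⊔ der (Lg σ) =
          Submodule.span ℂ {y | ∃ j, Irrational (zet (n j)) ∧ y = σ j} ⊔ der (Lg σ) ∧
      (hull K c = S ↔ ∀ j, Irrational (zet (n j))) ∧
      (Generic K S c ↔ IsTorsor (Zar K c) ∧ ∀ j, Irrational (zet (n j)))) := by
  have hτ := transc_K hK
  have h1 := fun y => hull_image (y := y) h.gen h.pos h.row hτ h.sub h.irr h.mem h.lie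
  have h2 := hull_eq_iff h.gen h.pos h.row hτ h.sub h.irr h.mem h.lie
  have h3 := generic_iff h.gen h.pos h.row hτ h.sub h.irr h.mem h.lie
  refine ⟨⟨h1, ?_, ?_⟩, ?_⟩
  · rw [h2, indep_iff]
  · rw [h3, indep_iff]
  · rintro rfl hinj hodd hz
    have hz' : z = fun j => (zet (n j) : ℂ) := funext hz
    subst hz'
    rw [h2, h3, indep_irr (ζ := fun j => zet (n j)) hinj hodd]
    refine ⟨?_, Iff.rfl, Iff.rfl⟩
    ext y
    rw [h1 y]
    exact irr_span (ζ := fun j => zet (n j)) h.gen hinj hodd

end Pool.Agent.Results.MP_e54452_nt.OddZetaTorsors
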