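import Mathlib
import Pool.Agent.R390.MZ.Per

set_option autoImplicit false

/-!
# The kernel of the period map of mixed Tate motives over the integers: three cases

Let `R` be the ring of motivic periods of `MT(ℤ)` and `per : R → ℂ` the period map.  Either `per` is
injective; or its kernel is a principal ideal, generated by a single motivic relation `f` between
multiple zeta values, and the dimensions of the spaces of periods of bounded weight are known exactly;
or the kernel contains two motivic relations `f`, `g` between multiple zeta values, `f` prime and `g`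
not a multiple of `f`, and these dimensions are known up to the weight of `g` and are bounded by a
second difference above it.
-/

open Pool.Agent.R390.MZ

namespace Pool.Agent.Results.MP_e54452_nt.PeriodKernel

/-- Let `M` be a model for the ring `R` of the motivic periods of mixed Tate motives over the integers
with the period map `per : R → ℂ`: it contains a polynomial ring (the motivic multiple zeta values,
`M.mot` is the inclusion) with variables of real periods `x_s` and weights `wt s`. Assume that for all
`k` there are exactly `d_k` monomials of weight `k`, and that their periods span the space `Z_k` of the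
multiple zeta values of weight `k`; `d_0 = 1`, `d_1 = 0`, `d_2 = 1`, `d_k = d_(k-2) + d_(k-3)`. Let
`C_k` be the sum of `Z_0 + … + Z_k` and `2πi (Z_0 + … + Z_(k-1))` (the periods of the effective motivic
periods of weight at most `k`), and let `E_k` be the sum of the `d_j + d_(j-1)` for `0 ≤ j ≤ k`, and
`E_k = 0` for `k < 0`. Then one of the following holds.
(i) `per` is injective, and `dim C_k = E_k` for all `k`.
(ii) The kernel of `per` is generated by one prime element `f` of the polynomial ring, and there is
`n ≥ 1` with `dim C_k = E_k - E_(k-n)` for all `k`.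
(iii) The kernel contains two elements `f`, `g` of the polynomial ring, `f` prime and `g` not a
multiple of `f`, and there are `m ≥ n ≥ 1` with `dim C_k = E_k - E_(k-n)` for all `k < m`, and
`dim C_k ≤ E_k - E_(k-n)` and `dim C_k ≤ E_k - E_(k-n) - E_(k-m) + E_(k-n-m)` for all `k`. -/
theorem result {R : Type} [CommRing R] [Algebra ℚ R] {σ : Type} (M : PeriodRing R σ)
    (wt : σ → ℕ) (hB : Gens ZL dz wt M.x) :
    (Function.Injective M.per ∧ ∀ k, Module.finrank ℚ (CP ZL k) = sumTo eff k) ∨
    (∃ f n, 1 ≤ n ∧ Prime f ∧ RingHom.ker M.per = Ideal.span {M.mot f} ∧
      ∀ k, Module.finrank ℚ (CP ZL k) + sh (sumTo eff) n k = sumTo eff k) ∨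
    (∃ f g n m, 1 ≤ n ∧ n ≤ m ∧ Prime f ∧ ¬ f ∣ g ∧ M.per (M.mot f) = 0 ∧ M.per (M.mot g) = 0 ∧
      (∀ k < m, Module.finrank ℚ (CP ZL k) + sh (sumTo eff) n k = sumTo eff k) ∧
      ∀ k, Module.finrank ℚ (CP ZL k) + sh (sumTo eff) n k ≤ sumTo eff k ∧
        Module.finrank ℚ (CP ZL k) + sh (sumTo eff) n k + sh (sumTo eff) m k ≤
          sumTo eff k + sh (sumTo eff) (n + m) k) :=
  tri_per M hB

end Pool.Agent.Results.MP_e54452_nt.PeriodKernel
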