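import Mathlib
import Pool.Agent.R473.DW.AlgMz

set_option autoImplicit false

/-!
# Polynomials with `S`-unit coefficients in multiple zeta values with one large argument
-/

namespace Pool.Agent.Results.MP_e54452_nt.PolynomialGap

open Pool.Agent.R473.DW Pool.Agent.Y760.RT Pool.Agent.TH507.ZS Pool.Agent.TH883.Zg

/-- the multiple zeta value `ζ(w_r, …, w_1, s)` in the notation of the problem, for
`w = [w_1, …, w_r]` (the argument `s` belongs to the largest variable) -/
noncomputable def val (s : ℕ) (w : List ℕ+) : ℝ := mzv (s :: w.map fun a : ℕ+ => (a : ℕ))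

/-- `D` is a sum of `R` terms `a ∏ p ^ k(p)` over `p ∈ S`, with integers `|a| ≤ R` and integers
`|k(p)| ≤ X` -/
def SUnitSum (S : Finset ℕ) (R : ℕ) (X : ℝ) (D : ℚ) : Prop :=
  ∃ (a : Fin R → ℤ) (k : Fin R → ℕ → ℤ), (∀ r, |a r| ≤ R) ∧ (∀ r, ∀ p ∈ S, |(k r p : ℝ)| ≤ X) ∧
    D = ∑ r, (a r : ℚ) * ∏ p ∈ S, (p : ℚ) ^ k r p

/-- **Result.** Let `Λ` be a finite set of tuples of positive integers, `h, d ≥ 0` and `S` a finite
set of primes. There is `K ≥ 2` such that for all `R`, `C` and `B > 1` and all large `n` the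
following holds for every polynomial `P` of degree at most `d` in the variables `X (j, w)`, `j ≤ h`,
`w ∈ Λ`, whose constant term is an integer and whose other coefficients are sums of at most `R`
`S`-units of height exponential in `C n`: the value of `P` at the multiple zeta values
`X (j, w) = ζ(w, n + j)` is larger than `B ^ (-n) min(1, |c| K ^ (-n))` in absolute value, for every
coefficient `c ≠ 0` of `P` other than the constant term. -/
theorem result (Λ : Finset (List ℕ+)) (h d : ℕ) (S : Finset ℕ) (hS : ∀ p ∈ S, p.Prime) :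
    ∃ K : ℕ, 2 ≤ K ∧ ∀ (R : ℕ) (C B : ℝ), 1 < B → ∃ n0 : ℕ, ∀ n : ℕ, n0 ≤ n →
      ∀ P : MvPolynomial (Fin (h + 1) × Λ) ℚ, P.totalDegree ≤ d →
      (∃ p : ℤ, P.coeff 0 = p) → (∀ e, e ≠ 0 → SUnitSum S R (C * n) (P.coeff e)) →
      ∀ e, e ≠ 0 → P.coeff e ≠ 0 →
      (B ^ n)⁻¹ * min 1 (|((P.coeff e : ℚ) : ℝ)| / (K : ℝ) ^ n) <
        |MvPolynomial.aeval (fun x : Fin (h + 1) × Λ => val (n + x.1) x.2) P| := by
  classical
  set T : Finset ((Fin (h + 1) × Λ) →₀ ℕ) :=
    ((Finset.univ : Finset (Fin (h + 1) × Λ → Fin (d + 1))).image exq).erase 0 with hT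
  have hTs : ∀ P : MvPolynomial (Fin (h + 1) × Λ) ℚ, P.totalDegree ≤ d →
      P.support ⊆ insert 0 T := by
    intro P hP m hm
    by_cases h0 : m = 0
    · rw [h0]
      exact Finset.mem_insert_self _ _
    · refine Finset.mem_insert_of_mem (Finset.mem_erase.2 ⟨h0, Finset.mem_image.2 ?_⟩)
      have h1 := MvPolynomial.le_totalDegree hm
      have h2 : ∀ i, m i < d + 1 := by
        intro i
        have h3 : m i ≤ m.sum fun _ e => e := by
          rw [Finsupp.sum_fintype _ _ (fun _ => rfl)]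
          exact Finset.single_le_sum (f := fun i => m i) (fun _ _ => Nat.zero_le _)
            (Finset.mem_univ i)
        omega
      refine ⟨fun i => ⟨m i, h2 i⟩, Finset.mem_univ _, ?_⟩
      ext i
      rw [exq_apply]
  have h0T : (0 : (Fin (h + 1) × Λ) →₀ ℕ) ∉ T := by
    rw [hT]
    exact Finset.notMem_erase _ _
  obtain ⟨K, hK, hmain⟩ := mz_forms (Λ := Λ) (h := h) (σ := T)
    (fun e => MvPolynomial.monomial (e : (Fin (h + 1) × Λ) →₀ ℕ) (1 : ℚ)) (by
      intro v c hv
      funext e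
      have h1 := congrArg (MvPolynomial.coeff (e : (Fin (h + 1) × Λ) →₀ ℕ)) hv
      have he : (0 : (Fin (h + 1) × Λ) →₀ ℕ) ≠ e := fun h2 => h0T (h2 ▸ e.2)
      rw [MvPolynomial.coeff_sum, MvPolynomial.coeff_C, if_neg he, Finset.sum_eq_single e] at h1
      · rw [MvPolynomial.coeff_smul, MvPolynomial.coeff_monomial, if_pos rfl, smul_eq_mul,
          mul_one] at h1
        exact h1
      · intro e' _ hne
        rw [MvPolynomial.coeff_smul, MvPolynomial.coeff_monomial, if_neg fun h2 =>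
          hne (Subtype.ext h2), smul_zero]
      · intro hn
        exact absurd (Finset.mem_univ _) hn) hS
  refine ⟨K, hK, fun R C B hB => ?_⟩
  obtain ⟨n0, hn0⟩ := hmain R C B hB
  refine ⟨n0, fun n hn P hPd hP0 hPS e he hec => ?_⟩
  obtain ⟨p, hp⟩ := hP0
  have heT : e ∈ T := by
    have h1 := hTs P hPd (MvPolynomial.mem_support_iff.2 hec)
    exact (Finset.mem_insert.1 h1).resolve_left he
  have h1 := hn0 n hn (fun e : T => P.coeff (e : (Fin (h + 1) × Λ) →₀ ℕ)) (fun e' => hPS e'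
    fun h2 => h0T (h2 ▸ e'.2)) ⟨⟨e, heT⟩, hec⟩ (-p) ⟨e, heT⟩
  refine h1.trans_le (le_of_eq ?_)
  congr 1
  rw [Finset.sum_coe_sort T fun e => ((P.coeff e : ℚ) : ℝ) *
    MvPolynomial.aeval (fun j : Fin (h + 1) × Λ => zt j.2.1 (n + j.1)) (MvPolynomial.monomial e 1)]
  have h2 : P = ∑ e ∈ insert 0 T, P.coeff e • MvPolynomial.monomial e (1 : ℚ) := by
    conv_lhs => rw [← MvPolynomial.support_sum_monomial_coeff P]
    rw [Finset.sum_subset (hTs P hPd) fun m _ hm => by
      rw [MvPolynomial.notMem_support_iff.1 hm, map_zero]]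
    exact Finset.sum_congr rfl fun m _ => by
      rw [MvPolynomial.smul_monomial, smul_eq_mul, mul_one]
  have h3 : MvPolynomial.aeval (fun x : Fin (h + 1) × Λ => val (n + x.1) x.2) P =
      ∑ e ∈ insert 0 T, ((P.coeff e : ℚ) : ℝ) *
        MvPolynomial.aeval (fun x : Fin (h + 1) × Λ => val (n + x.1) x.2)
          (MvPolynomial.monomial e (1 : ℚ)) := by
    conv_lhs => rw [h2]
    rw [map_sum]
    exact Finset.sum_congr rfl fun m _ => by rw [map_smul, Rat.smul_def]
  rw [h3, Finset.sum_insert h0T, hp]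
  have h4 : MvPolynomial.aeval (fun x : Fin (h + 1) × Λ => val (n + x.1) x.2)
      (MvPolynomial.monomial 0 (1 : ℚ)) = 1 := by
    rw [MvPolynomial.monomial_zero', map_one, map_one]
  rw [h4]
  push_cast
  rw [mul_one, sub_neg_eq_add, add_comm]
  rfl

end Pool.Agent.Results.MP_e54452_nt.PolynomialGap
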